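import Mathlib
import Pool.Agent.H29.NoDiff

set_option autoImplicit false

namespace Pool.Agent.Results.MP_3b0c1c_an.Generic

open Set Pool.Agent.H29.NoDiff

/-- `c` restricted to the interval `I` (of positive length) is a unit speed `C¹` curve. -/
def UnitCurve {d : ℕ} (c : ℝ → EuclideanSpace ℝ (Fin d)) (I : Set ℝ) : Prop :=
  I.OrdConnected ∧ (interior I).Nonempty ∧ ContDiffOn ℝ 1 c I ∧ ∀ t ∈ I, ‖derivWithin c I t‖ = 1

/-- The set `𝒩(U)`. -/
def N {d : ℕ} (U : Set (EuclideanSpace ℝ (Fin d))) : Set C(closure U, ℝ) :=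
  {f | ∀ (c : ℝ → closure U) (I : Set ℝ), UnitCurve (fun t => (c t).1) I →
    (∀ t ∈ I, (c t).1 ∈ U) → ∀ t ∈ I, ¬ DifferentiableWithinAt ℝ (fun s => f (c s)) I t}

theorem result (d : ℕ) (U : Set (EuclideanSpace ℝ (Fin d))) (hU : Bornology.IsBounded U) :
    ∃ G : Set C(closure U, ℝ), IsGδ G ∧ Dense G ∧ G ⊆ N U := by
  haveI : CompactSpace (closure U) := isCompact_iff_compactSpace.1 hU.isCompact_closure
  let l : Fin d → C(closure U, ℝ) := fun i => ⟨fun x => x.1 i, by fun_prop⟩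
  refine ⟨_, (gen l).1, (gen l).2, fun f hf c I ⟨h1, h2, h3, h4⟩ _ t ht => ?_⟩
  have hd := h3.differentiableOn one_ne_zero t ht
  obtain ⟨i, v, hv, hl⟩ := curve hd (h4 t ht)
  obtain ⟨A, hA⟩ := hd.hasFDerivWithinAt.isBigO_sub.bound
  refine notdiff (l := l i) (fun m => mem_iInter.1 hf (i, m)) h1 h2 ht
    (Topology.IsInducing.subtypeVal.continuousOn_iff.2 h3.continuousOn) (A := A) ?_ hv hl
  filter_upwards [hA] with s hs
  rwa [Subtype.dist_eq, dist_eq_norm]

end Pool.Agent.Results.MP_3b0c1c_an.Generic
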